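import Pool.Agent.Helper11.PK.Defs

set_option autoImplicit false

namespace Pool.Agent.Helper56.PK

universe w

open Pool.Agent.Helper11.PK

/-- In a finite `p`-group each proper subgroup is killed by a surjection to `ℤ/p`. -/
theorem exists_surj (p : ℕ) [Fact p.Prime] {P : Type w} [Group P] [Finite P] (hP : IsPGroup p P)
    (H : Subgroup P) (hH : H ≠ ⊤) :
    ∃ χ : P →* Multiplicative (ZMod p), Function.Surjective χ ∧ ∀ h ∈ H, χ h = 1 := by
  obtain ⟨M, hM, hHM⟩ := (IsCoatomic.eq_top_or_exists_le_coatom H).resolve_left hH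
  have hnil : Group.IsNilpotent P := hP.isNilpotent
  have hn : M.Normal :=
    Subgroup.NormalizerCondition.normal_of_coatom M Group.normalizerCondition_of_isNilpotent hM
  obtain ⟨y, hy⟩ : ∃ y, y ∉ M := by
    by_contra hcon
    push Not at hcon
    exact hM.1 (Subgroup.eq_top_iff' M |>.mpr hcon)
  have hsup : M ⊔ Subgroup.zpowers y = ⊤ := by
    apply hM.2
    refine lt_of_le_of_ne le_sup_left ?_
    intro h
    apply hy
    rw [h]
    exact Subgroup.mem_sup_right (Subgroup.mem_zpowers y)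
  have htop : Subgroup.zpowers ((QuotientGroup.mk' M) y) = ⊤ := by
    have h1 := congrArg (Subgroup.map (QuotientGroup.mk' M)) hsup
    rw [Subgroup.map_sup, Subgroup.map_top_of_surjective _ (QuotientGroup.mk'_surjective M),
      MonoidHom.map_zpowers] at h1
    have h2 : Subgroup.map (QuotientGroup.mk' M) M = ⊥ := by
      rw [Subgroup.map_eq_bot_iff, QuotientGroup.ker_mk']
    rwa [h2, bot_sup_eq] at h1
  have hcyc : IsCyclic (P ⧸ M) :=
    ⟨(QuotientGroup.mk' M) y, fun q => Subgroup.mem_zpowers_iff.mp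
      (by rw [htop]; exact Subgroup.mem_top q)⟩
  have hQ : IsPGroup p (P ⧸ M) := hP.to_quotient M
  obtain ⟨n, hcard⟩ := IsPGroup.iff_card.mp hQ
  have hcard1 : 1 < Nat.card (P ⧸ M) := by
    rw [Finite.one_lt_card_iff_nontrivial]
    exact QuotientGroup.nontrivial_iff.mpr hM.1
  have hn0 : n ≠ 0 := by
    rintro rfl
    rw [pow_zero] at hcard
    omega
  have hdvd : p ∣ Nat.card (P ⧸ M) := by
    rw [hcard]
    exact dvd_pow_self p hn0
  let e : Multiplicative (ZMod (Nat.card (P ⧸ M))) ≃* (P ⧸ M) := zmodCyclicMulEquiv hcyc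
  let c : Multiplicative (ZMod (Nat.card (P ⧸ M))) →* Multiplicative (ZMod p) :=
    AddMonoidHom.toMultiplicative (ZMod.castHom hdvd (ZMod p)).toAddMonoidHom
  have hc : Function.Surjective c := by
    intro z
    obtain ⟨t, ht⟩ := ZMod.castHom_surjective hdvd z.toAdd
    exact ⟨Multiplicative.ofAdd t, by
      apply Multiplicative.toAdd.injective
      exact ht⟩
  refine ⟨(c.comp e.symm.toMonoidHom).comp (QuotientGroup.mk' M), ?_, ?_⟩
  · exact (hc.comp e.symm.surjective).comp (QuotientGroup.mk'_surjective M)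
  · intro h hh
    have h1 : (QuotientGroup.mk' M) h = 1 :=
      (QuotientGroup.eq_one_iff h).mpr (hHM hh)
    rw [MonoidHom.comp_apply, h1, map_one]

theorem burn (p : ℕ) [Fact p.Prime] {P : Type w} [Group P] [Finite P] (hP : IsPGroup p P) {r : ℕ}
    (x : Fin r → P) (hx : Subgroup.closure (Set.range x) = ⊤) (hr : MinGen (⊤ : Subgroup P) r)
    (l : Fin r) :
    ∃ χ : P → ZMod p, (∀ g h, χ (g * h) = χ g + χ h) ∧
      ∀ j, χ (x j) = if j = l then 1 else 0 := by
  obtain ⟨r', rfl⟩ : ∃ r', r = r' + 1 := ⟨r - 1, by have := l.2; omega⟩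
  have hH : Subgroup.closure (Set.range (x ∘ l.succAbove)) ≠ ⊤ := by
    intro h
    have := hr r' (x ∘ l.succAbove) h
    omega
  obtain ⟨χ₀, hs, h0⟩ := exists_surj p hP _ hH
  have hj : ∀ j, j ≠ l → χ₀ (x j) = 1 := by
    intro j hj
    obtain ⟨i, rfl⟩ := Fin.exists_succAbove_eq hj
    exact h0 _ (Subgroup.subset_closure ⟨i, rfl⟩)
  have hl : (χ₀ (x l)).toAdd ≠ 0 := by
    intro hl
    have hl1 : χ₀ (x l) = 1 := Multiplicative.toAdd.injective hl
    have hle : Subgroup.closure (Set.range x) ≤ χ₀.ker := by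
      rw [Subgroup.closure_le]
      rintro _ ⟨j, rfl⟩
      rw [SetLike.mem_coe, MonoidHom.mem_ker]
      by_cases h : j = l
      · rw [h]; exact hl1
      · exact hj j h
    rw [hx] at hle
    obtain ⟨g, hg⟩ := hs (Multiplicative.ofAdd (1 : ZMod p))
    have h1 : χ₀ g = 1 := MonoidHom.mem_ker.mp (hle (Subgroup.mem_top g))
    rw [h1] at hg
    have h2 : (0 : ZMod p) = 1 := congrArg Multiplicative.toAdd hg
    exact zero_ne_one h2
  refine ⟨fun g => ((χ₀ (x l)).toAdd)⁻¹ * (χ₀ g).toAdd, fun g h => ?_, fun j => ?_⟩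
  · show ((χ₀ (x l)).toAdd)⁻¹ * (χ₀ (g * h)).toAdd =
      ((χ₀ (x l)).toAdd)⁻¹ * (χ₀ g).toAdd + ((χ₀ (x l)).toAdd)⁻¹ * (χ₀ h).toAdd
    rw [map_mul, toAdd_mul, mul_add]
  · by_cases h : j = l
    · rw [if_pos h, h]
      exact inv_mul_cancel₀ hl
    · rw [if_neg h]
      show ((χ₀ (x l)).toAdd)⁻¹ * (χ₀ (x j)).toAdd = 0
      rw [hj j h, toAdd_one, mul_zero]

end Pool.Agent.Helper56.PK
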